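import Pool.Agent.PCO.StmtsE

/-! Row E4 of squad NTS: the common boundary ray is determined by the apex. -/

set_option autoImplicit false

open Matrix Filter Topology

namespace Pool.Agent.PCO.H92

open Pool.Agent.PFS Pool.Agent.PFJ

theorem e4 (hBF1 : Bf1Stmt) (hBF2 : Bf2Stmt) (hBXM : BxmStmt) (hCLM : ClmF) (hPRJ : PrjF) :
    E4Stmt := by
  intro n C Γ d hH U1 U2 v b hB1 hB2 hd1 hd2 hne hb1 hb2
  have hP : PCone C := hH.toCC.toPCone
  have hb0 : b ≠ 0 := hb1.2.2.1
  refine ⟨?_, ?_⟩
  · intro U3 hB3 hd3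
    obtain ⟨f1a, f1b, f1c, f1d, _, _, ⟨f, hf⟩, f1e, _⟩ := hBF1 n C Γ hH.toCC hH.maxc U1 v hB1
    obtain ⟨_, _, _, _, _, _, _, f3e, _⟩ := hBF1 n C Γ hH.toCC hH.maxc U3 v hB3
    obtain ⟨_, _, _, _, _, _, g7⟩ := hBF2 n C Γ hH.toCC hH.maxc U1 v hB1
    have hface : ∀ y ∈ Face C (b + v), ∃ α β : ℝ, y = α • b + β • v := by
      by_contra hcon
      push Not at hcon
      exact hne (hCLM n C Γ d hH U1 U2 v b hB1 hB2 hd1 hd2 hb1 hb2 hcon).symm
    obtain ⟨p, hp⟩ := hPRJ n C Γ d hH U1 v hB1 hd1
    obtain ⟨q, hq⟩ := hPRJ n C Γ d hH U3 v hB3 hd3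
    have hb3U : q b ∈ U3 := hq.mem b
    have hb3C : q b ∈ closure C := hq.pos b hb1.2.1
    have hqq : q (q b) = q b := hq.idU _ hb3U
    have hpb : p b = b := hp.idU b hb1.1
    have hpb3 : p (q b) = b := by
      have h1 : q (b - q b) = 0 := by rw [map_sub, hqq, sub_self]
      have h2 : p (b - q b) = 0 := (hp.ker _).2 ((hq.ker _).1 h1)
      rw [map_sub, hpb] at h2
      exact (sub_eq_zero.1 h2).symm
    have hb30 : q b ≠ 0 := by
      intro h
      rw [h, map_zero] at hpb3
      exact hb0 hpb3.symm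
    have hpv : p v = 0 := by
      rw [hp.ker]
      intro x hx τ hτ
      refine ⟨1, one_pos, ?_, ?_⟩
      · have : (1 : ℝ) • v + τ • x - v = τ • x := by module
        rw [this]
        exact subset_closure (hP.smul x hx τ hτ)
      · have : (1 : ℝ) • v + τ • x + v = (2 : ℝ) • v + τ • x := by module
        rw [this]
        exact hP.cl_add (hP.cl_smul f1b (by norm_num)) (subset_closure (hP.smul x hx τ hτ))
    have hnC : b + v + q b ∉ C := by
      intro hmem
      obtain ⟨M, hM, hMC⟩ := hP.absorb hmem f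
      have h1 := hp.pos _ (subset_closure hMC)
      have h2 : p (M • (b + v + q b) - f) = (2 * M) • b - f := by
        rw [map_sub, map_smul, map_add, map_add, hpb, hpv, hpb3, hp.idU f hf.1]
        module
      rw [h2] at h1
      have h3 := (Pool.Agent.PFJ.H76.unf n C hP U1 f hf).2.1 ((2 * M) • b)
        (U1.smul_mem _ hb1.1) h1
      have h4 := (Pool.Agent.PFJ.H76.unf n C hP U1 _ h3).1 (2 * M)⁻¹ (by positivity)
      rw [smul_smul, inv_mul_cancel₀ (by positivity), one_smul] at h4
      exact hb1.2.2.2 h4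
    have hlam := (f3e (q b) hb3U hb3C hb30).1
    obtain ⟨M, hM, hMC⟩ := g7 b hb1 (q b) hlam hnC
    have hvC : v ∈ closure C := f1b
    have hbvC : b + v ∈ closure C := hP.cl_add hb1.2.1 hvC
    have hF : b + v + q b ∈ Face C (b + v) := by
      refine ⟨1 / (1 + M), by positivity, ?_, ?_⟩
      · have h1 : b + v - (1 / (1 + M)) • (b + v + q b) =
            (1 / (1 + M)) • (M • (b + v) - q b) := by
          have h2 : (b + v) = (1 / (1 + M)) • ((1 + M) • (b + v)) := by
            rw [smul_smul, one_div, inv_mul_cancel₀ (by positivity), one_smul]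
          calc b + v - (1 / (1 + M)) • (b + v + q b)
              = (1 / (1 + M)) • ((1 + M) • (b + v)) - (1 / (1 + M)) • (b + v + q b) := by
                rw [← h2]
            _ = _ := by module
        rw [h1]
        exact hP.cl_smul hMC (by positivity)
      · have h1 : b + v + q b - (1 / (1 + M)) • (b + v) =
            (1 - 1 / (1 + M)) • (b + v) + q b := by module
        rw [h1]
        refine hP.cl_add (hP.cl_smul hbvC ?_) hb3C
        have : 1 / (1 + M) ≤ 1 := by
          rw [div_le_one (by positivity)]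
          linarith
        linarith
    obtain ⟨α, β, hαβ⟩ := hface _ hF
    have hb3 : q b = (α - 1) • b + (β - 1) • v := by
      have : q b = (b + v + q b) - (b + v) := by abel
      rw [this, hαβ]
      module
    have hα : α - 1 = 1 := by
      have h1 : b = (α - 1) • b := by
        calc b = p (q b) := hpb3.symm
          _ = (α - 1) • b := by
            rw [hb3, map_add, map_smul, map_smul, hpb, hpv, smul_zero, add_zero]
      have h2 : (1 - (α - 1)) • b = 0 := by
        rw [sub_smul, one_smul, ← h1, sub_self]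
      rcases smul_eq_zero.1 h2 with h3 | h3
      · linarith
      · exact absurd h3 hb0
    rw [hα, one_smul] at hb3
    have hβ1 : 0 ≤ β - 1 := by
      refine (hB1.comp b hb1.1 (β - 1) ?_).2
      rw [← hb3]
      exact hb3C
    have hβ2 : 0 ≤ -(β - 1) := by
      refine (hB3.comp (q b) hb3U (-(β - 1)) ?_).2
      have : q b + -(β - 1) • v = b := by
        rw [hb3]
        module
      rw [this]
      exact hb1.2.1
    have hβ : β - 1 = 0 := by linarith
    rw [hβ, zero_smul, add_zero] at hb3
    rw [← hb3]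
    exact hb3U
  · intro b' hb1' hb2'
    obtain ⟨_, _, _, _, _, _, h7⟩ := hBXM n C Γ d hH U1 v hB1 hd1
    have hni : ¬ Ind2 b b' := by
      intro hi
      exact hne (h7 U2 v hB2 hd2 b hb1.1 b' hb1'.1 hb1.2.1 hb1'.2.1 hi hb2.1 hb2'.1).symm
    unfold Ind2 at hni
    push Not at hni
    obtain ⟨s, t, hst, hne'⟩ := hni
    by_cases ht : t = 0
    · exfalso
      rw [ht, zero_smul, add_zero] at hst
      rcases smul_eq_zero.1 hst with h | h
      · exact hne' h ht
      · exact hb0 h
    · refine ⟨-(s / t), ?_⟩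
      have h1 : t • b' = -(s • b) := by
        rw [eq_neg_iff_add_eq_zero, add_comm]
        exact hst
      have h2 : b' = t⁻¹ • (t • b') := by rw [smul_smul, inv_mul_cancel₀ ht, one_smul]
      rw [h2, h1, smul_neg, smul_smul, neg_smul, div_eq_inv_mul]

end Pool.Agent.PCO.H92
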